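import Mathlib

set_option autoImplicit false

/-! # The minimal degree-sequence-forcing set `D(G)` can be infinite -/

namespace Pool.Agent.Results.MP_a83c81_co.InfiniteD

open Finset
open scoped Classical

/-- the degree sequence of a finite graph, as the multiset of its vertex degrees -/
noncomputable def degSeq {V : Type} [Finite V] (H : SimpleGraph V) : Multiset ℕ :=
  (@Finset.univ V (Fintype.ofFinite V)).val.map (fun v => (H.neighborSet v).ncard)

/-- `H ∈ P(G)`: some graph `H'` with the degree sequence of `H` has an induced subgraph isomorphic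
to `G`. (Equality of the degree sequences forces `|V(H')| = |V(H)|`, so `H'` may be taken on the
vertex set of `H`.) -/
def InP {U : Type} (G : SimpleGraph U) {V : Type} [Finite V] (H : SimpleGraph V) : Prop :=
  ∃ H' : SimpleGraph V, degSeq H' = degSeq H ∧ Nonempty (G ↪g H')

/-- `H ∈ D(G)`: `H ∈ P(G)` and no proper induced subgraph of `H` lies in `P(G)`. -/
def InD {U : Type} (G : SimpleGraph U) {V : Type} [Finite V] (H : SimpleGraph V) : Prop :=
  InP G H ∧ ∀ s : Set V, s ≠ Set.univ → ¬ InP G (H.induce s)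

/-! ## Degree sequences and isomorphisms -/

theorem degSeq_eq {V : Type} [Fintype V] (H : SimpleGraph V) :
    degSeq H = (univ : Finset V).val.map (fun v => (H.neighborSet v).ncard) := by
  have h : Fintype.ofFinite V = ‹Fintype V› := Subsingleton.elim _ _
  unfold degSeq
  rw [h]

theorem ncard_iso {V W : Type} {H : SimpleGraph V} {K : SimpleGraph W} (e : H ≃g K) (v : V) :
    (K.neighborSet (e v)).ncard = (H.neighborSet v).ncard := by
  have : K.neighborSet (e v) = e '' (H.neighborSet v) := by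
    ext w
    constructor
    · intro h
      refine ⟨e.symm w, ?_, by simp⟩
      have : K.Adj (e v) (e (e.symm w)) := by simpa using h
      exact e.map_rel_iff.mp this
    · rintro ⟨u, hu, rfl⟩
      exact e.map_rel_iff.mpr hu
  rw [this, Set.ncard_image_of_injective _ e.injective]

theorem degSeq_iso {V W : Type} [Finite V] [Finite W] {H : SimpleGraph V} {K : SimpleGraph W}
    (e : H ≃g K) : degSeq H = degSeq K := by
  have := Fintype.ofFinite V
  have := Fintype.ofFinite W
  rw [degSeq_eq, degSeq_eq, ← Multiset.map_univ_val_equiv e.toEquiv, Multiset.map_map]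
  congr 1
  funext v
  exact (ncard_iso e v).symm

theorem inP_iso {U : Type} {G : SimpleGraph U} {V W : Type} [Finite V] [Finite W]
    {H : SimpleGraph V} {K : SimpleGraph W} (e : H ≃g K) (h : InP G H) : InP G K := by
  obtain ⟨H', hd, ⟨f⟩⟩ := h
  let K' : SimpleGraph W := H'.comap e.toEquiv.symm
  let e' : H' ≃g K' :=
    { toEquiv := e.toEquiv
      map_rel_iff' := by
        intro a b
        change H'.Adj (e.toEquiv.symm (e.toEquiv a)) (e.toEquiv.symm (e.toEquiv b)) ↔ _
        rw [Equiv.symm_apply_apply, Equiv.symm_apply_apply] }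
  refine ⟨K', ?_, ⟨f.trans e'.toEmbedding⟩⟩
  rw [← degSeq_iso e', ← degSeq_iso e, hd]

/-- two functions with the same multiset of values differ by a permutation -/
theorem exists_perm {V : Type} [Fintype V] (f g : V → ℕ)
    (h : (univ : Finset V).val.map f = (univ : Finset V).val.map g) :
    ∃ σ : V ≃ V, ∀ v, f (σ v) = g v := by
  have hc : ∀ k, Fintype.card {v // g v = k} = Fintype.card {v // f v = k} := by
    intro k
    have h1 := congrArg (Multiset.count k) h
    rw [Multiset.count_map, Multiset.count_map] at h1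
    rw [Fintype.card_subtype, Fintype.card_subtype]
    simp only [eq_comm (a := k)] at h1
    exact h1.symm
  refine ⟨Equiv.ofFiberEquiv (f := g) (g := f) (fun k => Fintype.equivOfCardEq (hc k)), ?_⟩
  intro v
  exact Equiv.ofFiberEquiv_map _ v

/-- a member of `P(G)` has a realisation with the same degree at every vertex containing `G` -/
theorem InP.pointwise {U : Type} {G : SimpleGraph U} {V : Type} [Fintype V] {H : SimpleGraph V}
    (h : InP G H) : ∃ K : SimpleGraph V,
      (∀ v, (K.neighborSet v).ncard = (H.neighborSet v).ncard) ∧ Nonempty (G ↪g K) := by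
  obtain ⟨H', hd, ⟨f⟩⟩ := h
  rw [degSeq_eq, degSeq_eq] at hd
  obtain ⟨σ, hσ⟩ := exists_perm _ _ hd
  let K : SimpleGraph V := H'.comap σ
  let e : K ≃g H' :=
    { toEquiv := σ
      map_rel_iff' := by
        intro a b
        simp [K] }
  refine ⟨K, fun v => ?_, ⟨f.trans e.symm.toEmbedding⟩⟩
  rw [← ncard_iso e v]
  exact hσ v

/-! ## The defect of a tripartition -/

/-- the pairs violating the structure in which label `0` is a clique complete to label `2` and
label `1` is independent and anticomplete to label `2` -/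
noncomputable def bad {V : Type} [Fintype V] (H : SimpleGraph V) (l : V → Fin 3) :
    Finset (V × V) :=
  univ.filter (fun p => (p.1 ≠ p.2 ∧ l p.1 = 0 ∧ l p.2 ≠ 1 ∧ ¬ H.Adj p.1 p.2) ∨
    (l p.1 = 1 ∧ l p.2 ≠ 0 ∧ H.Adj p.1 p.2))

theorem bad_le {U V : Type} [Fintype U] [Fintype V] {G : SimpleGraph U} {H : SimpleGraph V}
    (f : G ↪g H) (l : V → Fin 3) : (bad G (fun u => l (f u))).card ≤ (bad H l).card := by
  apply Finset.card_le_card_of_injOn (fun p => (f p.1, f p.2))
  · intro p hp
    simp only [bad, coe_filter, mem_univ, true_and, Set.mem_ofPred_eq] at hp ⊢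
    rcases hp with ⟨h1, h2, h3, h4⟩ | ⟨h1, h2, h3⟩
    · left
      exact ⟨fun h => h1 (f.injective h), h2, h3, fun h => h4 (f.map_rel_iff.mp h)⟩
    · right
      exact ⟨h1, h2, f.map_rel_iff.mpr h3⟩
  · intro p _ q _ h
    simp only [Prod.mk.injEq] at h
    exact Prod.ext (f.injective h.1) (f.injective h.2)

/-- The defect is determined by the degrees. -/
theorem bad_card {V : Type} [Fintype V] (H : SimpleGraph V) (l : V → Fin 3) :
    (bad H l).card + ∑ v ∈ univ.filter (fun v => l v = 0), (H.neighborSet v).ncard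
      + (univ.filter (fun v => l v = 0)).card * ((univ.filter (fun v => l v = 1)).card + 1)
      = (univ.filter (fun v => l v = 0)).card * Fintype.card V
        + ∑ v ∈ univ.filter (fun v => l v = 1), (H.neighborSet v).ncard := by
  have hn : ∀ v, (H.neighborSet v).ncard = ∑ w : V, (if H.Adj v w then 1 else 0) := by
    intro v
    rw [Set.ncard_eq_toFinset_card', Finset.sum_boole, Nat.cast_id]
    congr 1
    ext w
    simp
  have hbad : (bad H l).card = ∑ v : V, ∑ w : V,
      (if (v ≠ w ∧ l v = 0 ∧ l w ≠ 1 ∧ ¬ H.Adj v w) ∨ (l v = 1 ∧ l w ≠ 0 ∧ H.Adj v w)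
        then 1 else 0) := by
    rw [bad, Finset.card_filter, ← Finset.univ_product_univ, Finset.sum_product]
  -- per-vertex identities
  have hA : ∀ v, l v = 0 → (∑ w : V,
      (if (v ≠ w ∧ l v = 0 ∧ l w ≠ 1 ∧ ¬ H.Adj v w) ∨ (l v = 1 ∧ l w ≠ 0 ∧ H.Adj v w)
        then 1 else 0)) + (H.neighborSet v).ncard + ((univ.filter (fun v => l v = 1)).card + 1)
      = Fintype.card V + ∑ w : V, (if l w = 1 ∧ H.Adj v w then 1 else 0) := by
    intro v hv
    rw [hn, Finset.card_filter]
    have h1 : (1 : ℕ) = ∑ w : V, (if w = v then 1 else 0) := by simp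
    have hV : Fintype.card V = ∑ w : V, 1 := by simp
    rw [hV]
    conv_lhs => rw [h1]
    rw [← Finset.sum_add_distrib, ← Finset.sum_add_distrib, ← Finset.sum_add_distrib,
      ← Finset.sum_add_distrib]
    apply Finset.sum_congr rfl
    intro w _
    by_cases hw : w = v
    · subst hw
      simp [hv]
    · by_cases h2 : l w = 1 <;> by_cases h3 : H.Adj v w <;> simp [hv, hw, h2, h3, Ne.symm hw]
  have hB : ∀ v, l v = 1 → (∑ w : V,
      (if (v ≠ w ∧ l v = 0 ∧ l w ≠ 1 ∧ ¬ H.Adj v w) ∨ (l v = 1 ∧ l w ≠ 0 ∧ H.Adj v w)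
        then 1 else 0)) + ∑ w : V, (if l w = 0 ∧ H.Adj v w then 1 else 0)
      = (H.neighborSet v).ncard := by
    intro v hv
    rw [hn, ← Finset.sum_add_distrib]
    apply Finset.sum_congr rfl
    intro w _
    by_cases h2 : l w = 0 <;> by_cases h3 : H.Adj v w <;> simp [hv, h2, h3]
  have hC : ∀ v, l v ≠ 0 → l v ≠ 1 → (∑ w : V,
      (if (v ≠ w ∧ l v = 0 ∧ l w ≠ 1 ∧ ¬ H.Adj v w) ∨ (l v = 1 ∧ l w ≠ 0 ∧ H.Adj v w)
        then 1 else 0)) = 0 := by
    intro v h0 h1
    apply Finset.sum_eq_zero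
    intro w _
    simp [h0, h1]
  -- split the total
  have hsplit : (bad H l).card = (∑ v ∈ univ.filter (fun v => l v = 0), ∑ w : V,
      (if (v ≠ w ∧ l v = 0 ∧ l w ≠ 1 ∧ ¬ H.Adj v w) ∨ (l v = 1 ∧ l w ≠ 0 ∧ H.Adj v w)
        then 1 else 0)) + ∑ v ∈ univ.filter (fun v => l v = 1), ∑ w : V,
      (if (v ≠ w ∧ l v = 0 ∧ l w ≠ 1 ∧ ¬ H.Adj v w) ∨ (l v = 1 ∧ l w ≠ 0 ∧ H.Adj v w)
        then 1 else 0) := by
    rw [hbad, Finset.sum_filter, Finset.sum_filter, ← Finset.sum_add_distrib]
    apply Finset.sum_congr rfl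
    intro v _
    by_cases h0 : l v = 0
    · have h1 : l v ≠ 1 := by rw [h0]; decide
      rw [if_pos h0, if_neg h1, add_zero]
    · by_cases h1 : l v = 1
      · rw [if_neg h0, if_pos h1, zero_add]
      · rw [if_neg h0, if_neg h1, hC v h0 h1, add_zero]
  have hA' : (∑ v ∈ univ.filter (fun v => l v = 0), ∑ w : V,
      (if (v ≠ w ∧ l v = 0 ∧ l w ≠ 1 ∧ ¬ H.Adj v w) ∨ (l v = 1 ∧ l w ≠ 0 ∧ H.Adj v w)
        then 1 else 0)) + ∑ v ∈ univ.filter (fun v => l v = 0), (H.neighborSet v).ncard
      + (univ.filter (fun v => l v = 0)).card * ((univ.filter (fun v => l v = 1)).card + 1)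
      = (univ.filter (fun v => l v = 0)).card * Fintype.card V
        + ∑ v ∈ univ.filter (fun v => l v = 0), ∑ w : V,
          (if l w = 1 ∧ H.Adj v w then 1 else 0) := by
    rw [← smul_eq_mul, ← smul_eq_mul, ← Finset.sum_const, ← Finset.sum_const,
      ← Finset.sum_add_distrib, ← Finset.sum_add_distrib, ← Finset.sum_add_distrib]
    apply Finset.sum_congr rfl
    intro v hv
    exact hA v (Finset.mem_filter.mp hv).2
  have hB' : (∑ v ∈ univ.filter (fun v => l v = 1), ∑ w : V,
      (if (v ≠ w ∧ l v = 0 ∧ l w ≠ 1 ∧ ¬ H.Adj v w) ∨ (l v = 1 ∧ l w ≠ 0 ∧ H.Adj v w)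
        then 1 else 0)) + ∑ v ∈ univ.filter (fun v => l v = 1), ∑ w : V,
          (if l w = 0 ∧ H.Adj v w then 1 else 0)
      = ∑ v ∈ univ.filter (fun v => l v = 1), (H.neighborSet v).ncard := by
    rw [← Finset.sum_add_distrib]
    apply Finset.sum_congr rfl
    intro v hv
    exact hB v (Finset.mem_filter.mp hv).2
  have hsym : ∑ v ∈ univ.filter (fun v => l v = 0), ∑ w : V,
          (if l w = 1 ∧ H.Adj v w then 1 else 0)
      = ∑ v ∈ univ.filter (fun v => l v = 1), ∑ w : V,
          (if l w = 0 ∧ H.Adj v w then 1 else 0) := by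
    rw [Finset.sum_filter, Finset.sum_filter]
    have e1 : ∀ v : V, (if l v = 0 then ∑ w : V, (if l w = 1 ∧ H.Adj v w then 1 else 0) else 0)
        = ∑ w : V, (if l v = 0 ∧ l w = 1 ∧ H.Adj v w then 1 else 0) := by
      intro v
      by_cases h : l v = 0 <;> simp [h]
    have e2 : ∀ v : V, (if l v = 1 then ∑ w : V, (if l w = 0 ∧ H.Adj v w then 1 else 0) else 0)
        = ∑ w : V, (if l v = 1 ∧ l w = 0 ∧ H.Adj v w then 1 else 0) := by
      intro v
      by_cases h : l v = 1 <;> simp [h]
    rw [Finset.sum_congr rfl (fun v _ => e1 v), Finset.sum_congr rfl (fun v _ => e2 v),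
      Finset.sum_comm]
    apply Finset.sum_congr rfl
    intro v _
    apply Finset.sum_congr rfl
    intro w _
    congr 1
    apply propext
    rw [H.adj_comm w v]
    tauto
  rw [hsplit]
  omega

theorem bad_card_eq {V : Type} [Fintype V] {H K : SimpleGraph V}
    (h : ∀ v, (K.neighborSet v).ncard = (H.neighborSet v).ncard) (l : V → Fin 3) :
    (bad K l).card = (bad H l).card := by
  have h1 := bad_card H l
  have h2 := bad_card K l
  simp only [h] at h2
  omega

/-! ## The graph `G` -/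

/-- the edges of `G`, as pairs `(i, j)` with `i < j` -/
def edges : List (ℕ × ℕ) :=
  [(0, 1), (0, 2), (0, 3), (1, 2), (1, 3), (2, 3),
   (0, 4), (0, 7), (1, 4), (1, 5), (2, 5), (2, 6), (3, 6), (3, 7),
   (0, 8), (0, 10), (1, 8), (1, 9), (1, 10), (2, 8), (2, 9), (2, 10), (3, 8), (3, 9), (3, 10),
   (8, 9), (9, 10)]

/-- The graph `G` on `11` vertices: `0,1,2,3` form a clique, `4,5,6,7` are independent, the edges
between these two sets form an `8`-cycle, `8,9,10` is a path, and `0,1,2,3` are adjacent to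
`8,9,10` except for the pair `0,9`. -/
def G0 : SimpleGraph (Fin 11) where
  Adj a b := (a.val, b.val) ∈ edges ∨ (b.val, a.val) ∈ edges
  symm := ⟨fun _ _ h => h.symm⟩
  loopless := ⟨by decide⟩

instance : DecidableRel G0.Adj := fun a b =>
  inferInstanceAs (Decidable ((a.val, b.val) ∈ edges ∨ (b.val, a.val) ∈ edges))

theorem arith (d a b c e a' b' c' e' : ℕ) (h1 : a + a' ≤ 1) (h2 : b + b' ≤ 3) (h3 : c + c' ≤ 4)
    (h4 : e + e' ≤ 3) (hd : d ≤ 1)
    (h : d + (7 * a + 8 * b + 2 * c + 5 * e) + (a + b + c + e) * ((a' + b' + c' + e') + 1)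
      = (a + b + c + e) * 11 + (7 * a' + 8 * b' + 2 * c' + 5 * e')) :
    (a + b + c + e) + (a' + b' + c' + e') = 0 ∨
      ((a + b + c + e) + (a' + b' + c' + e') = 8 ∧ d = 1) := by
  obtain ⟨P, hP⟩ : ∃ P, P = a + b + c + e := ⟨_, rfl⟩
  obtain ⟨Q, hQ⟩ : ∃ Q, Q = a' + b' + c' + e' := ⟨_, rfl⟩
  rw [← hP, ← hQ] at h ⊢
  have hP' : P ≤ 11 := by omega
  have hQ' : Q ≤ 11 := by omega
  interval_cases P <;> interval_cases Q <;> omega

theorem sum11 (f : Fin 11 → ℕ) : ∑ g, f g
    = f 0 + (f 1 + f 2 + f 3) + (f 4 + f 5 + f 6 + f 7) + (f 8 + f 9 + f 10) := by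
  have : ∑ g, f g = f 0 + f 1 + f 2 + f 3 + f 4 + f 5 + f 6 + f 7 + f 8 + f 9 + f 10 := by
    rw [Fin.sum_univ_castSucc, Fin.sum_univ_castSucc, Fin.sum_univ_castSucc, Fin.sum_univ_eight]
    rfl
  rw [this]
  ring

theorem G0_deg (v : Fin 11) :
    (G0.neighborSet v).ncard = (![7, 8, 8, 8, 2, 2, 2, 2, 5, 5, 5] : Fin 11 → ℕ) v := by
  have h : ∀ v : Fin 11, (univ.filter (fun w => G0.Adj v w)).card
      = (![7, 8, 8, 8, 2, 2, 2, 2, 5, 5, 5] : Fin 11 → ℕ) v := by decide
  rw [← h v, ← Set.ncard_coe_finset]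
  congr 1
  ext w
  simp

theorem G0_bad (l : Fin 11 → Fin 3) (h : (bad G0 l).card ≤ 1) :
    (univ.filter (fun g => l g ≠ 2)).card = 0 ∨
      ((univ.filter (fun g => l g ≠ 2)).card = 8 ∧ (bad G0 l).card = 1) := by
  have key := bad_card G0 l
  obtain ⟨A, hA⟩ : ∃ A : Fin 11 → ℕ, A = fun g => if l g = 0 then 1 else 0 := ⟨_, rfl⟩
  obtain ⟨B, hB⟩ : ∃ B : Fin 11 → ℕ, B = fun g => if l g = 1 then 1 else 0 := ⟨_, rfl⟩
  have hle : ∀ g, A g + B g ≤ 1 := by
    intro g
    rw [hA, hB]
    change (if l g = 0 then (1 : ℕ) else 0) + (if l g = 1 then 1 else 0) ≤ 1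
    generalize l g = x
    revert x
    decide
  have hcA : (univ.filter (fun g => l g = 0)).card = ∑ g, A g := by
    rw [Finset.card_filter, hA]
  have hcB : (univ.filter (fun g => l g = 1)).card = ∑ g, B g := by
    rw [Finset.card_filter, hB]
  have hsA : ∑ v ∈ univ.filter (fun v => l v = 0), (G0.neighborSet v).ncard
      = ∑ g, (![7, 8, 8, 8, 2, 2, 2, 2, 5, 5, 5] : Fin 11 → ℕ) g * A g := by
    rw [Finset.sum_filter]
    apply Finset.sum_congr rfl
    intro g _
    rw [G0_deg, hA]
    by_cases hg : l g = 0 <;> simp [hg]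
  have hsB : ∑ v ∈ univ.filter (fun v => l v = 1), (G0.neighborSet v).ncard
      = ∑ g, (![7, 8, 8, 8, 2, 2, 2, 2, 5, 5, 5] : Fin 11 → ℕ) g * B g := by
    rw [Finset.sum_filter]
    apply Finset.sum_congr rfl
    intro g _
    rw [G0_deg, hB]
    by_cases hg : l g = 1 <;> simp [hg]
  have hcN : (univ.filter (fun g => l g ≠ 2)).card = ∑ g, A g + ∑ g, B g := by
    rw [Finset.card_filter, ← Finset.sum_add_distrib]
    apply Finset.sum_congr rfl
    intro g _
    rw [hA, hB]
    change (if l g ≠ 2 then (1 : ℕ) else 0)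
      = (if l g = 0 then (1 : ℕ) else 0) + (if l g = 1 then 1 else 0)
    generalize l g = x
    revert x
    decide
  rw [hcA, hcB, hsA, hsB, Fintype.card_fin, sum11, sum11, sum11, sum11] at key
  rw [hcN, sum11, sum11]
  have e0 := hle 0
  have e1 := hle 1
  have e2 := hle 2
  have e3 := hle 3
  have e4 := hle 4
  have e5 := hle 5
  have e6 := hle 6
  have e7 := hle 7
  have e8 := hle 8
  have e9 := hle 9
  have e10 := hle 10
  apply arith _ _ _ _ _ _ _ _ _ e0 (by omega) (by omega) (by omega) h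
  have k0 : (![7, 8, 8, 8, 2, 2, 2, 2, 5, 5, 5] : Fin 11 → ℕ) 0 = 7 := rfl
  have k1 : (![7, 8, 8, 8, 2, 2, 2, 2, 5, 5, 5] : Fin 11 → ℕ) 1 = 8 := rfl
  have k2 : (![7, 8, 8, 8, 2, 2, 2, 2, 5, 5, 5] : Fin 11 → ℕ) 2 = 8 := rfl
  have k3 : (![7, 8, 8, 8, 2, 2, 2, 2, 5, 5, 5] : Fin 11 → ℕ) 3 = 8 := rfl
  have k4 : (![7, 8, 8, 8, 2, 2, 2, 2, 5, 5, 5] : Fin 11 → ℕ) 4 = 2 := rfl
  have k5 : (![7, 8, 8, 8, 2, 2, 2, 2, 5, 5, 5] : Fin 11 → ℕ) 5 = 2 := rfl
  have k6 : (![7, 8, 8, 8, 2, 2, 2, 2, 5, 5, 5] : Fin 11 → ℕ) 6 = 2 := rfl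
  have k7 : (![7, 8, 8, 8, 2, 2, 2, 2, 5, 5, 5] : Fin 11 → ℕ) 7 = 2 := rfl
  have k8 : (![7, 8, 8, 8, 2, 2, 2, 2, 5, 5, 5] : Fin 11 → ℕ) 8 = 5 := rfl
  have k9 : (![7, 8, 8, 8, 2, 2, 2, 2, 5, 5, 5] : Fin 11 → ℕ) 9 = 5 := rfl
  have k10 : (![7, 8, 8, 8, 2, 2, 2, 2, 5, 5, 5] : Fin 11 → ℕ) 10 = 5 := rfl
  rw [k0, k1, k2, k3, k4, k5, k6, k7, k8, k9, k10] at key
  linarith

/-! ## The graphs `M k` and their realisations `M' k`

Both have the vertex set `Fin 11 ⊕ (Fin (k+1) × Bool)`: the vertices of `G` together with a chain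
`x_i = (i, true)`, `y_i = (i, false)`. -/

/-- the vertex set -/
abbrev W (k : ℕ) : Type := Fin 11 ⊕ (Fin (k + 1) × Bool)

/-- adjacency in `M' k`, the realisation which contains `G` -/
def adj' (k : ℕ) : W k → W k → Prop
  | .inl g, .inl h => G0.Adj g h
  | .inl g, .inr (_, c) => g.val < 4 ∨ (8 ≤ g.val ∧ c = true)
  | .inr (_, c), .inl g => g.val < 4 ∨ (8 ≤ g.val ∧ c = true)
  | .inr (i, b), .inr (j, c) => (i < j ∧ b = true) ∨ (j < i ∧ c = true) ∨ (i = j ∧ b ≠ c)

/-- adjacency in `M k` -/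
def adj (k : ℕ) : W k → W k → Prop
  | .inl g, .inl h => (G0.Adj g h ∧ ¬ (g = 0 ∧ h = 4) ∧ ¬ (g = 4 ∧ h = 0) ∧
      ¬ (g = 8 ∧ h = 9) ∧ ¬ (g = 9 ∧ h = 8)) ∨ (g = 0 ∧ h = 9) ∨ (g = 9 ∧ h = 0)
  | .inl g, .inr (j, c) => g.val < 4 ∨ (8 ≤ g.val ∧ c = true) ∨
      (g = 4 ∧ j.val = 0 ∧ c = true) ∨ (g = 8 ∧ j.val = k ∧ c = false)
  | .inr (j, c), .inl g => g.val < 4 ∨ (8 ≤ g.val ∧ c = true) ∨
      (g = 4 ∧ j.val = 0 ∧ c = true) ∨ (g = 8 ∧ j.val = k ∧ c = false)
  | .inr (i, b), .inr (j, c) => (i < j ∧ b = true) ∨ (j < i ∧ c = true) ∨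
      (i.val + 1 = j.val ∧ b = false ∧ c = true) ∨ (j.val + 1 = i.val ∧ c = false ∧ b = true)

/-- the graph `M' k` -/
def M' (k : ℕ) : SimpleGraph (W k) where
  Adj := adj' k
  symm := ⟨by
    rintro (g | ⟨i, b⟩) (h | ⟨j, c⟩) H
    · exact SimpleGraph.Adj.symm (G := G0) H
    · exact H
    · exact H
    · rcases H with H | H | H
      · exact Or.inr (Or.inl H)
      · exact Or.inl H
      · exact Or.inr (Or.inr ⟨H.1.symm, H.2.symm⟩)⟩
  loopless := ⟨by
    rintro (g | ⟨i, b⟩) H
    · exact G0.loopless.irrefl g H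
    · rcases H with H | H | H
      · exact lt_irrefl _ H.1
      · exact lt_irrefl _ H.1
      · exact H.2 rfl⟩

/-- the graph `M k` -/
def M (k : ℕ) : SimpleGraph (W k) where
  Adj := adj k
  symm := ⟨by
    rintro (g | ⟨i, b⟩) (h | ⟨j, c⟩) H
    · rcases H with ⟨H, h1, h2, h3, h4⟩ | H | H
      · exact Or.inl ⟨SimpleGraph.Adj.symm (G := G0) H, fun e => h2 ⟨e.2, e.1⟩, fun e => h1 ⟨e.2, e.1⟩,
          fun e => h4 ⟨e.2, e.1⟩, fun e => h3 ⟨e.2, e.1⟩⟩
      · exact Or.inr (Or.inr ⟨H.2, H.1⟩)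
      · exact Or.inr (Or.inl ⟨H.2, H.1⟩)
    · exact H
    · exact H
    · rcases H with H | H | H | H
      · exact Or.inr (Or.inl H)
      · exact Or.inl H
      · exact Or.inr (Or.inr (Or.inr H))
      · exact Or.inr (Or.inr (Or.inl H))⟩
  loopless := ⟨by
    rintro (g | ⟨i, b⟩) H
    · rcases H with H | H | H
      · exact G0.loopless.irrefl g H.1
      · exact absurd (H.1.symm.trans H.2) (by decide)
      · exact absurd (H.1.symm.trans H.2) (by decide)
    · rcases H with H | H | H | H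
      · exact lt_irrefl _ H.1
      · exact lt_irrefl _ H.1
      · omega
      · omega⟩

/-- `G` is an induced subgraph of `M' k` -/
def emb (k : ℕ) : G0 ↪g M' k where
  toFun := Sum.inl
  inj' := Sum.inl_injective
  map_rel_iff' := Iff.rfl

theorem ncard_switch {V : Type} [Finite V] {N N' : Set V} {p q : V} (hp : p ∈ N) (hq : q ∉ N)
    (h : ∀ w, w ∈ N' ↔ (w = q ∨ (w ∈ N ∧ w ≠ p))) : N'.ncard = N.ncard := by
  have e : N' = insert q (N \ {p}) := by
    ext w
    rw [h w, Set.mem_insert_iff, Set.mem_sdiff, Set.mem_singleton_iff]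
  rw [e, Set.ncard_insert_of_notMem (fun h => hq h.1), Set.ncard_sdiff_singleton_of_mem hp]
  have : 0 < N.ncard := by
    rw [Set.ncard_pos]
    exact ⟨p, hp⟩
  omega

theorem deg_eq (k : ℕ) (v : W k) :
    ((M' k).neighborSet v).ncard = ((M k).neighborSet v).ncard := by
  rcases v with g | ⟨i, b⟩
  · -- gadget vertices
    have hg : g = 0 ∨ g = 4 ∨ g = 8 ∨ g = 9 ∨ (g ≠ 0 ∧ g ≠ 4 ∧ g ≠ 8 ∧ g ≠ 9) := by
      by_cases h0 : g = 0 <;> by_cases h4 : g = 4 <;> by_cases h8 : g = 8 <;>
        by_cases h9 : g = 9 <;> simp [h0, h4, h8, h9]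
    rcases hg with rfl | rfl | rfl | rfl | ⟨h0, h4, h8, h9⟩
    · apply ncard_switch (p := Sum.inl 9) (q := Sum.inl 4)
      · exact Or.inr (Or.inl ⟨rfl, rfl⟩)
      · rintro (⟨-, h, -⟩ | h | h)
        · exact h ⟨rfl, rfl⟩
        · exact absurd h.2 (by decide)
        · exact absurd h.1 (by decide)
      · rintro (h | ⟨j, c⟩)
        · change G0.Adj 0 h ↔ (Sum.inl h : W k) = Sum.inl 4 ∨ (((G0.Adj 0 h ∧ ¬ ((0 : Fin 11) = 0 ∧ h = 4) ∧ ¬ ((0 : Fin 11) = 4 ∧ h = 0) ∧
            ¬ ((0 : Fin 11) = 8 ∧ h = 9) ∧ ¬ ((0 : Fin 11) = 9 ∧ h = 8)) ∨ ((0 : Fin 11) = 0 ∧ h = 9) ∨ ((0 : Fin 11) = 9 ∧ h = 0)) ∧ (Sum.inl h : W k) ≠ Sum.inl 9)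
          rw [Sum.inl.injEq, Ne, Sum.inl.injEq]
          revert h
          decide
        · constructor
          · intro _
            exact Or.inr ⟨Or.inl (by decide), by simp⟩
          · intro _
            exact Or.inl (by decide)
    · apply ncard_switch (p := Sum.inr (0, true)) (q := Sum.inl 0)
      · exact Or.inr (Or.inr (Or.inl ⟨rfl, rfl, rfl⟩))
      · rintro (⟨-, -, h, -⟩ | h | h)
        · exact h ⟨rfl, rfl⟩
        · exact absurd h.1 (by decide)
        · exact absurd h.1 (by decide)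
      · rintro (h | ⟨j, c⟩)
        · change G0.Adj 4 h ↔ (Sum.inl h : W k) = Sum.inl 0 ∨ (((G0.Adj 4 h ∧ ¬ ((4 : Fin 11) = 0 ∧ h = 4) ∧ ¬ ((4 : Fin 11) = 4 ∧ h = 0) ∧
            ¬ ((4 : Fin 11) = 8 ∧ h = 9) ∧ ¬ ((4 : Fin 11) = 9 ∧ h = 8)) ∨ ((4 : Fin 11) = 0 ∧ h = 9) ∨ ((4 : Fin 11) = 9 ∧ h = 0)) ∧ (Sum.inl h : W k) ≠ Sum.inr (0, true))
          rw [Sum.inl.injEq]
          have : (Sum.inl h : W k) ≠ Sum.inr (0, true) := by simp
          simp only [this, ne_eq, not_false_eq_true, and_true]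
          clear this
          revert h
          decide
        · constructor
          · rintro (h | h)
            · exact absurd h (by decide)
            · exact absurd h.1 (by decide)
          · rintro (h | ⟨h, h'⟩)
            · simp at h
            · rcases h with h | h | h | h
              · exact absurd h (by decide)
              · exact absurd h.1 (by decide)
              · exfalso
                apply h'
                rw [Sum.inr.injEq, Prod.mk.injEq]
                exact ⟨Fin.ext h.2.1, h.2.2⟩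
              · exact absurd h.1 (by decide)
    · apply ncard_switch (p := Sum.inr (Fin.last k, false)) (q := Sum.inl 9)
      · exact Or.inr (Or.inr (Or.inr ⟨rfl, rfl, rfl⟩))
      · rintro (⟨-, -, -, h, -⟩ | h | h)
        · exact h ⟨rfl, rfl⟩
        · exact absurd h.1 (by decide)
        · exact absurd h.1 (by decide)
      · rintro (h | ⟨j, c⟩)
        · change G0.Adj 8 h ↔ (Sum.inl h : W k) = Sum.inl 9 ∨ (((G0.Adj 8 h ∧ ¬ ((8 : Fin 11) = 0 ∧ h = 4) ∧ ¬ ((8 : Fin 11) = 4 ∧ h = 0) ∧
            ¬ ((8 : Fin 11) = 8 ∧ h = 9) ∧ ¬ ((8 : Fin 11) = 9 ∧ h = 8)) ∨ ((8 : Fin 11) = 0 ∧ h = 9) ∨ ((8 : Fin 11) = 9 ∧ h = 0)) ∧ (Sum.inl h : W k) ≠ Sum.inr (Fin.last k, false))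
          rw [Sum.inl.injEq]
          have : (Sum.inl h : W k) ≠ Sum.inr (Fin.last k, false) := by simp
          simp only [this, ne_eq, not_false_eq_true, and_true]
          clear this
          revert h
          decide
        · constructor
          · rintro (h | h)
            · exact absurd h (by decide)
            · right
              refine ⟨Or.inr (Or.inl h), ?_⟩
              rw [Ne, Sum.inr.injEq, Prod.mk.injEq]
              rintro ⟨-, h'⟩
              rw [h.2] at h'
              exact absurd h' (by decide)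
          · rintro (h | ⟨h, h'⟩)
            · simp at h
            · rcases h with h | h | h | h
              · exact absurd h (by decide)
              · exact Or.inr h
              · exact absurd h.1 (by decide)
              · exfalso
                apply h'
                rw [Sum.inr.injEq, Prod.mk.injEq]
                exact ⟨Fin.ext h.2.1, h.2.2⟩
    · apply ncard_switch (p := Sum.inl 0) (q := Sum.inl 8)
      · exact Or.inr (Or.inr ⟨rfl, rfl⟩)
      · rintro (⟨-, -, -, -, h⟩ | h | h)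
        · exact h ⟨rfl, rfl⟩
        · exact absurd h.1 (by decide)
        · exact absurd h.2 (by decide)
      · rintro (h | ⟨j, c⟩)
        · change G0.Adj 9 h ↔ (Sum.inl h : W k) = Sum.inl 8 ∨ (((G0.Adj 9 h ∧ ¬ ((9 : Fin 11) = 0 ∧ h = 4) ∧ ¬ ((9 : Fin 11) = 4 ∧ h = 0) ∧
            ¬ ((9 : Fin 11) = 8 ∧ h = 9) ∧ ¬ ((9 : Fin 11) = 9 ∧ h = 8)) ∨ ((9 : Fin 11) = 0 ∧ h = 9) ∨ ((9 : Fin 11) = 9 ∧ h = 0)) ∧ (Sum.inl h : W k) ≠ Sum.inl 0)
          rw [Sum.inl.injEq, Ne, Sum.inl.injEq]
          revert h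
          decide
        · constructor
          · rintro (h | h)
            · exact absurd h (by decide)
            · exact Or.inr ⟨Or.inr (Or.inl h), by simp⟩
          · rintro (h | ⟨h, h'⟩)
            · simp at h
            · rcases h with h | h | h | h
              · exact absurd h (by decide)
              · exact Or.inr h
              · exact absurd h.1 (by decide)
              · exact absurd h.1 (by decide)
    · congr 1
      ext w
      rcases w with h | ⟨j, c⟩
      · change G0.Adj g h ↔ ((G0.Adj g h ∧ ¬ (g = 0 ∧ h = 4) ∧ ¬ (g = 4 ∧ h = 0) ∧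
            ¬ (g = 8 ∧ h = 9) ∧ ¬ (g = 9 ∧ h = 8)) ∨ (g = 0 ∧ h = 9) ∨ (g = 9 ∧ h = 0))
        simp [h0, h4, h8, h9]
      · change (g.val < 4 ∨ (8 ≤ g.val ∧ c = true)) ↔ (g.val < 4 ∨ (8 ≤ g.val ∧ c = true) ∨
          (g = 4 ∧ j.val = 0 ∧ c = true) ∨ (g = 8 ∧ j.val = k ∧ c = false))
        simp [h4, h8]
  · cases b with
    | true =>
      -- the vertex `x_i`
      have hq : (Sum.inr (i, false) : W k) ∉ (M k).neighborSet (Sum.inr (i, true)) := by
        rintro (h | h | h | h)
        · exact lt_irrefl _ h.1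
        · exact lt_irrefl _ h.1
        · exact absurd h.2.1 (by decide)
        · omega
      by_cases hi : i.val = 0
      · apply ncard_switch (p := Sum.inl 4) (q := Sum.inr (i, false)) _ hq
        · rintro (h | ⟨j, c⟩)
          · change (h.val < 4 ∨ (8 ≤ h.val ∧ true = true)) ↔
              ((Sum.inl h : W k) = Sum.inr (i, false) ∨ ((h.val < 4 ∨ (8 ≤ h.val ∧ true = true) ∨
          (h = 4 ∧ i.val = 0 ∧ true = true) ∨ (h = 8 ∧ i.val = k ∧ true = false)) ∧ (Sum.inl h : W k) ≠ Sum.inl 4))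
            have : ¬ ((Sum.inl h : W k) = Sum.inr (i, false)) := by simp
            simp only [this, false_or, Ne, Sum.inl.injEq, hi, and_true, true_and, Bool.true_eq_false,
              and_false, or_false]
            clear this
            revert h
            decide
          · change ((i < j ∧ true = true) ∨ (j < i ∧ c = true) ∨ (i = j ∧ true ≠ c)) ↔
              ((Sum.inr (j, c) : W k) = Sum.inr (i, false) ∨ (((i < j ∧ true = true) ∨ (j < i ∧ c = true) ∨
      (i.val + 1 = j.val ∧ true = false ∧ c = true) ∨ (j.val + 1 = i.val ∧ c = false ∧ true = true)) ∧ (Sum.inr (j, c) : W k) ≠ Sum.inl 4))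
            rw [Sum.inr.injEq, Prod.mk.injEq]
            have h4 : ((Sum.inr (j, c) : W k) ≠ Sum.inl 4) := by simp
            simp only [h4, and_true, Fin.lt_def, Fin.ext_iff]
            cases c <;> simp <;> omega
        · exact Or.inr (Or.inr (Or.inl ⟨rfl, hi, rfl⟩))
      · apply ncard_switch (p := Sum.inr (⟨i.val - 1, by omega⟩, false)) (q := Sum.inr (i, false)) _ hq
        · rintro (h | ⟨j, c⟩)
          · change (h.val < 4 ∨ (8 ≤ h.val ∧ true = true)) ↔
              ((Sum.inl h : W k) = Sum.inr (i, false) ∨ ((h.val < 4 ∨ (8 ≤ h.val ∧ true = true) ∨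
          (h = 4 ∧ i.val = 0 ∧ true = true) ∨ (h = 8 ∧ i.val = k ∧ true = false)) ∧ (Sum.inl h : W k) ≠ Sum.inr (⟨i.val - 1, by omega⟩, false)))
            have h1 : ¬ ((Sum.inl h : W k) = Sum.inr (i, false)) := by simp
            have h2 : ((Sum.inl h : W k) ≠ Sum.inr (⟨i.val - 1, by omega⟩, false)) := by simp
            simp only [h1, h2, false_or, hi, and_true, true_and, Bool.true_eq_false,
              and_false, false_and, or_false, ne_eq, not_false_eq_true]
          · change ((i < j ∧ true = true) ∨ (j < i ∧ c = true) ∨ (i = j ∧ true ≠ c)) ↔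
              ((Sum.inr (j, c) : W k) = Sum.inr (i, false) ∨ (((i < j ∧ true = true) ∨ (j < i ∧ c = true) ∨
      (i.val + 1 = j.val ∧ true = false ∧ c = true) ∨ (j.val + 1 = i.val ∧ c = false ∧ true = true)) ∧ (Sum.inr (j, c) : W k) ≠ Sum.inr (⟨i.val - 1, by omega⟩, false)))
            simp only [Ne, Sum.inr.injEq, Prod.mk.injEq, Fin.lt_def, Fin.ext_iff]
            cases c <;> simp <;> omega
        · refine Or.inr (Or.inr (Or.inr ⟨?_, rfl, rfl⟩))
          change i.val - 1 + 1 = i.val
          omega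
    | false =>
      have hq : (Sum.inr (i, true) : W k) ∉ (M k).neighborSet (Sum.inr (i, false)) := by
        rintro (h | h | h | h)
        · exact lt_irrefl _ h.1
        · exact lt_irrefl _ h.1
        · omega
        · exact absurd h.2.1 (by decide)
      by_cases hi : i.val = k
      · apply ncard_switch (p := Sum.inl 8) (q := Sum.inr (i, true)) _ hq
        · rintro (h | ⟨j, c⟩)
          · change (h.val < 4 ∨ (8 ≤ h.val ∧ false = true)) ↔
              ((Sum.inl h : W k) = Sum.inr (i, true) ∨ ((h.val < 4 ∨ (8 ≤ h.val ∧ false = true) ∨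
          (h = 4 ∧ i.val = 0 ∧ false = true) ∨ (h = 8 ∧ i.val = k ∧ false = false)) ∧ (Sum.inl h : W k) ≠ Sum.inl 8))
            have : ¬ ((Sum.inl h : W k) = Sum.inr (i, true)) := by simp
            simp only [this, false_or, Ne, Sum.inl.injEq, hi, and_true, true_and, Bool.false_eq_true,
              and_false, or_false]
            clear this
            revert h
            decide
          · change ((i < j ∧ false = true) ∨ (j < i ∧ c = true) ∨ (i = j ∧ false ≠ c)) ↔
              ((Sum.inr (j, c) : W k) = Sum.inr (i, true) ∨ (((i < j ∧ false = true) ∨ (j < i ∧ c = true) ∨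
      (i.val + 1 = j.val ∧ false = false ∧ c = true) ∨ (j.val + 1 = i.val ∧ c = false ∧ false = true)) ∧ (Sum.inr (j, c) : W k) ≠ Sum.inl 8))
            rw [Sum.inr.injEq, Prod.mk.injEq]
            have h4 : ((Sum.inr (j, c) : W k) ≠ Sum.inl 8) := by simp
            have hj := j.isLt
            simp only [h4, and_true, Fin.lt_def, Fin.ext_iff]
            cases c <;> simp <;> omega
        · exact Or.inr (Or.inr (Or.inr ⟨rfl, hi, rfl⟩))
      · have hlt : i.val + 1 < k + 1 := by have := i.isLt; omega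
        apply ncard_switch (p := Sum.inr (⟨i.val + 1, hlt⟩, true)) (q := Sum.inr (i, true)) _ hq
        · rintro (h | ⟨j, c⟩)
          · change (h.val < 4 ∨ (8 ≤ h.val ∧ false = true)) ↔
              ((Sum.inl h : W k) = Sum.inr (i, true) ∨ ((h.val < 4 ∨ (8 ≤ h.val ∧ false = true) ∨
          (h = 4 ∧ i.val = 0 ∧ false = true) ∨ (h = 8 ∧ i.val = k ∧ false = false)) ∧ (Sum.inl h : W k) ≠ Sum.inr (⟨i.val + 1, hlt⟩, true)))
            have h1 : ¬ ((Sum.inl h : W k) = Sum.inr (i, true)) := by simp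
            have h2 : ((Sum.inl h : W k) ≠ Sum.inr (⟨i.val + 1, hlt⟩, true)) := by simp
            simp only [h1, h2, false_or, hi, and_true, true_and, Bool.false_eq_true,
              and_false, false_and, or_false, ne_eq, not_false_eq_true]
          · change ((i < j ∧ false = true) ∨ (j < i ∧ c = true) ∨ (i = j ∧ false ≠ c)) ↔
              ((Sum.inr (j, c) : W k) = Sum.inr (i, true) ∨ (((i < j ∧ false = true) ∨ (j < i ∧ c = true) ∨
      (i.val + 1 = j.val ∧ false = false ∧ c = true) ∨ (j.val + 1 = i.val ∧ c = false ∧ false = true)) ∧ (Sum.inr (j, c) : W k) ≠ Sum.inr (⟨i.val + 1, hlt⟩, true)))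
            simp only [Ne, Sum.inr.injEq, Prod.mk.injEq, Fin.lt_def, Fin.ext_iff]
            cases c <;> simp <;> omega
        · exact Or.inr (Or.inr (Or.inl ⟨rfl, rfl, rfl⟩))

/-- the position of a vertex: `0` for `0,…,7`, `i+1` for `x_i, y_i`, `k+2` for `8,9,10` -/
def pos (k : ℕ) : W k → ℕ
  | .inl g => if g.val < 8 then 0 else k + 2
  | .inr (i, _) => i.val + 1

/-- the clique side -/
def side (k : ℕ) : W k → Bool
  | .inl g => decide (g.val < 4)
  | .inr (_, b) => b

/-- the tripartition at the cut `t` -/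
def lab (k t : ℕ) (v : W k) : Fin 3 := if pos k v ≤ t then (if side k v = true then 0 else 1) else 2

/-- the outgoing link vertex at the cut `t` -/
def IsOut (k t : ℕ) (u : W k) : Prop :=
  (t = 0 ∧ u = Sum.inl 4) ∨ ∃ i : Fin (k + 1), i.val + 1 = t ∧ u = Sum.inr (i, false)

/-- the incoming link vertex at the cut `t` -/
def IsIn (k t : ℕ) (v : W k) : Prop :=
  (∃ i : Fin (k + 1), i.val = t ∧ v = Sum.inr (i, true)) ∨ (t = k + 1 ∧ v = Sum.inl 8)

theorem IsOut.unique {k t : ℕ} {u u' : W k} (h : IsOut k t u) (h' : IsOut k t u') : u = u' := by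
  rcases h with ⟨h1, rfl⟩ | ⟨i, h1, rfl⟩ <;> rcases h' with ⟨h2, rfl⟩ | ⟨j, h2, rfl⟩
  · rfl
  · omega
  · omega
  · have : i = j := Fin.ext (by omega)
    rw [this]

theorem IsIn.unique {k t : ℕ} {u u' : W k} (h : IsIn k t u) (h' : IsIn k t u') : u = u' := by
  rcases h with ⟨i, h1, rfl⟩ | ⟨h1, rfl⟩ <;> rcases h' with ⟨j, h2, rfl⟩ | ⟨h2, rfl⟩
  · have : i = j := Fin.ext (by omega)
    rw [this]
  · have := i.isLt; omega
  · have := j.isLt; omega
  · rfl

theorem lab_eq_zero {k t : ℕ} {v : W k} : lab k t v = 0 ↔ pos k v ≤ t ∧ side k v = true := by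
  unfold lab
  by_cases h : pos k v ≤ t <;> by_cases h' : side k v = true <;> simp [h, h']

theorem lab_eq_one {k t : ℕ} {v : W k} : lab k t v = 1 ↔ pos k v ≤ t ∧ side k v = false := by
  unfold lab
  by_cases h : pos k v ≤ t <;> cases h' : side k v <;> simp [h]

theorem lab_ne_two {k t : ℕ} {v : W k} : lab k t v ≠ 2 ↔ pos k v ≤ t := by
  unfold lab
  by_cases h : pos k v ≤ t <;> cases h' : side k v <;> simp [h]

theorem E_adj1 : ∀ g h : Fin 11, g.val < 4 → (h.val < 4 ∨ 8 ≤ h.val) → g ≠ h →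
    ((G0.Adj g h ∧ ¬ (g = 0 ∧ h = 4) ∧ ¬ (g = 4 ∧ h = 0) ∧
      ¬ (g = 8 ∧ h = 9) ∧ ¬ (g = 9 ∧ h = 8)) ∨ (g = 0 ∧ h = 9) ∨ (g = 9 ∧ h = 0)) := by
  decide

theorem E_adj2 : ∀ g h : Fin 11, 4 ≤ g.val → g.val < 8 → 4 ≤ h.val →
    ¬ ((G0.Adj g h ∧ ¬ (g = 0 ∧ h = 4) ∧ ¬ (g = 4 ∧ h = 0) ∧
      ¬ (g = 8 ∧ h = 9) ∧ ¬ (g = 9 ∧ h = 8)) ∨ (g = 0 ∧ h = 9) ∨ (g = 9 ∧ h = 0)) := by
  decide

theorem no_bad1 (k t : ℕ) (ht : t ≤ k + 1) (u v : W k) (huv : u ≠ v) (hu : lab k t u = 0)
    (hv : lab k t v ≠ 1) : (M k).Adj u v := by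
  rw [lab_eq_zero] at hu
  rw [Ne, lab_eq_one] at hv
  obtain ⟨h1, h2⟩ := hu
  rcases u with g | ⟨i, b⟩
  · have hg : g.val < 4 := by simpa [side] using h2
    rcases v with h | ⟨j, c⟩
    · refine E_adj1 g h hg ?_ (fun e => huv (by rw [e]))
      by_contra hc
      push Not at hc
      apply hv
      refine ⟨?_, ?_⟩
      · simp only [pos, if_pos hc.2]; omega
      · simp [side]; omega
    · exact Or.inl hg
  · have hb : b = true := h2
    subst hb
    simp only [pos] at h1
    rcases v with h | ⟨j, c⟩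
    · change h.val < 4 ∨ (8 ≤ h.val ∧ true = true) ∨ _
      by_contra hc
      push Not at hc
      apply hv
      refine ⟨?_, ?_⟩
      · have : h.val < 8 := by
          by_contra h8
          exact hc.2.1 (by omega) rfl
        simp only [pos, if_pos this]; omega
      · simp [side]; omega
    · change (i < j ∧ true = true) ∨ (j < i ∧ c = true) ∨ _
      rcases lt_trichotomy i j with h | h | h
      · exact Or.inl ⟨h, rfl⟩
      · subst h
        cases c with
        | true => exact absurd rfl huv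
        | false => exact absurd ⟨h1, rfl⟩ hv
      · right; left
        refine ⟨h, ?_⟩
        by_contra hc
        have hc' : c = false := by simpa using hc
        apply hv
        refine ⟨?_, hc'⟩
        simp only [pos]
        have := Fin.lt_def.mp h
        omega

theorem bad_link (k t : ℕ) (ht : t ≤ k + 1) (u v : W k) (hu : lab k t u = 1)
    (hv : lab k t v ≠ 0) (h : (M k).Adj u v) : IsOut k t u ∧ IsIn k t v := by
  rw [lab_eq_one] at hu
  rw [Ne, lab_eq_zero] at hv
  obtain ⟨h1, h2⟩ := hu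
  rcases u with g | ⟨i, b⟩
  · have hg : 4 ≤ g.val := by simpa [side] using h2
    have hg8 : g.val < 8 := by
      by_contra hc
      simp only [pos, if_neg hc] at h1
      omega
    rcases v with a | ⟨j, c⟩
    · exfalso
      refine E_adj2 g a hg hg8 ?_ h
      by_contra hc
      apply hv
      refine ⟨?_, ?_⟩
      · have : a.val < 8 := by omega
        simp only [pos, if_pos this]; omega
      · simp [side]; omega
    · rcases h with h | h | h | h
      · omega
      · omega
      · obtain ⟨rfl, hj, rfl⟩ := h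
        have ht0 : t = 0 := by
          by_contra hc
          apply hv
          refine ⟨?_, rfl⟩
          simp only [pos]; omega
        exact ⟨Or.inl ⟨ht0, rfl⟩, Or.inl ⟨j, by omega, rfl⟩⟩
      · exfalso
        rw [h.1] at hg8
        exact absurd hg8 (by decide)
  · have hb : b = false := h2
    subst hb
    simp only [pos] at h1
    rcases v with a | ⟨j, c⟩
    · rcases h with h | h | h | h
      · exfalso
        apply hv
        refine ⟨?_, ?_⟩
        · have : a.val < 8 := by omega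
          simp only [pos, if_pos this]; omega
        · simp [side]; omega
      · exact absurd h.2 (by decide)
      · exact absurd h.2.2 (by decide)
      · obtain ⟨rfl, hi, -⟩ := h
        exact ⟨Or.inr ⟨i, by omega, rfl⟩, Or.inr ⟨by omega, rfl⟩⟩
    · rcases h with h | h | h | h
      · exact absurd h.2 (by decide)
      · exfalso
        apply hv
        refine ⟨?_, h.2⟩
        simp only [pos]
        have := Fin.lt_def.mp h.1
        omega
      · obtain ⟨hij, -, rfl⟩ := h
        have : ¬ (j.val + 1 ≤ t) := fun hc => hv ⟨hc, rfl⟩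
        exact ⟨Or.inr ⟨i, by omega, rfl⟩, Or.inl ⟨j, by omega, rfl⟩⟩
      · exact absurd h.2.2 (by decide)

/-- every bad pair of an induced subgraph of `M k` is the link pair at the cut -/
theorem bad_sub {k : ℕ} {n : ℕ} {K : SimpleGraph (Fin n)} (e : K ↪g M k) (t : ℕ) (ht : t ≤ k + 1)
    (p : Fin n × Fin n) (hp : p ∈ bad K (fun x => lab k t (e x))) :
    IsOut k t (e p.1) ∧ IsIn k t (e p.2) := by
  simp only [bad, mem_filter, mem_univ, true_and] at hp
  rcases hp with ⟨h1, h2, h3, h4⟩ | ⟨h1, h2, h3⟩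
  · exact absurd (e.map_rel_iff.mp
      (no_bad1 k t ht _ _ (fun h => h1 (e.injective h)) h2 h3)) h4
  · exact bad_link k t ht _ _ h1 h2 (e.map_rel_iff.mpr h3)

theorem bad_le_one {k : ℕ} {n : ℕ} {K : SimpleGraph (Fin n)} (e : K ↪g M k) (t : ℕ)
    (ht : t ≤ k + 1) : (bad K (fun x => lab k t (e x))).card ≤ 1 := by
  rw [Finset.card_le_one]
  intro p hp q hq
  obtain ⟨h1, h2⟩ := bad_sub e t ht p hp
  obtain ⟨h3, h4⟩ := bad_sub e t ht q hq
  exact Prod.ext (e.injective (h1.unique h3)) (e.injective (h2.unique h4))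

/-- **Key lemma.** An induced subgraph of `M k` which lies in `P(G)` contains the whole chain. -/
theorem contains_chain {k : ℕ} {n : ℕ} {K : SimpleGraph (Fin n)} (e : K ↪g M k) (hP : InP G0 K)
    (i : Fin (k + 1)) (b : Bool) : ∃ x, e x = Sum.inr (i, b) := by
  by_contra hcon
  push Not at hcon
  obtain ⟨K', hdeg, ⟨f⟩⟩ := hP.pointwise
  -- the special cut
  obtain ⟨s, hs, hs0⟩ : ∃ s, s ≤ k + 1 ∧ bad K (fun x => lab k s (e x)) = ∅ := by
    cases b with
    | true =>
      refine ⟨i.val, by omega, ?_⟩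
      rw [Finset.eq_empty_iff_forall_notMem]
      intro p hp
      obtain ⟨-, h2⟩ := bad_sub e i.val (by omega) p hp
      exact hcon p.2 (h2.unique (Or.inl ⟨i, rfl, rfl⟩))
    | false =>
      refine ⟨i.val + 1, by omega, ?_⟩
      rw [Finset.eq_empty_iff_forall_notMem]
      intro p hp
      obtain ⟨h1, -⟩ := bad_sub e (i.val + 1) (by omega) p hp
      exact hcon p.1 (h1.unique (Or.inr ⟨i, rfl, rfl⟩))
  have hle : ∀ t, t ≤ k + 1 → (bad G0 (fun g => lab k t (e (f g)))).card
      ≤ (bad K (fun x => lab k t (e x))).card := by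
    intro t ht
    rw [← bad_card_eq hdeg (fun x => lab k t (e x))]
    exact bad_le f (fun x => lab k t (e x))
  have hcount : ∀ t, s ≤ t → t ≤ k + 1 →
      (univ.filter (fun g => lab k t (e (f g)) ≠ 2)).card = 0 := by
    intro t hst
    induction t, hst using Nat.le_induction with
    | base =>
      intro ht
      have h1 := hle s ht
      rw [hs0, Finset.card_empty] at h1
      rcases G0_bad (fun g => lab k s (e (f g))) (by omega) with h | h
      · exact h
      · omega
    | succ t hst ih =>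
      intro ht
      have h0 := ih (by omega)
      have h1 := hle (t + 1) ht
      have h2 := bad_le_one e (t + 1) ht
      rcases G0_bad (fun g => lab k (t + 1) (e (f g))) (by omega) with h | h
      · exact h
      · exfalso
        have hsub : (univ.filter (fun g => lab k (t + 1) (e (f g)) ≠ 2)).card ≤ 2 := by
          have hlt : t < k + 1 := by omega
          have : (univ.filter (fun g => lab k (t + 1) (e (f g)) ≠ 2)).card
              ≤ ({Sum.inr (⟨t, hlt⟩, true), Sum.inr (⟨t, hlt⟩, false)} : Finset (W k)).card := by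
            apply Finset.card_le_card_of_injOn (fun g => e (f g))
            · intro g hg
              simp only [coe_filter, mem_univ, true_and, Set.mem_ofPred_eq, lab_ne_two] at hg
              have hg' : ¬ pos k (e (f g)) ≤ t := by
                intro hc
                rw [Finset.card_eq_zero, Finset.filter_eq_empty_iff] at h0
                exact h0 (Finset.mem_univ g) (lab_ne_two.mpr hc)
              rcases hw : e (f g) with a | ⟨j, c⟩
              · exfalso
                rw [hw] at hg hg'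
                simp only [pos] at hg hg'
                split_ifs at hg hg' <;> omega
              · rw [hw] at hg hg'
                simp only [pos] at hg hg'
                have hj : j = ⟨t, hlt⟩ := Fin.ext (by change j.val = t; omega)
                subst hj
                cases c <;> simp [hw]
            · intro g _ g' _ h
              exact f.injective (e.injective h)
          exact this.trans Finset.card_le_two
        omega
  have hfin := hcount (k + 1) hs le_rfl
  rw [Finset.card_eq_zero, Finset.filter_eq_empty_iff] at hfin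
  have hall : ∀ g : Fin 11, e (f g) ∈
      ({Sum.inl 8, Sum.inl 9, Sum.inl 10} : Finset (W k)) := by
    intro g
    have hg : ¬ pos k (e (f g)) ≤ k + 1 := fun hc => hfin (Finset.mem_univ g) (lab_ne_two.mpr hc)
    rcases hw : e (f g) with a | ⟨j, c⟩
    · rw [hw] at hg
      simp only [pos] at hg
      have ha : 8 ≤ a.val := by
        by_contra hc
        rw [if_pos (by omega)] at hg
        omega
      have key : ∀ a : Fin 11, 8 ≤ a.val → a = 8 ∨ a = 9 ∨ a = 10 := by decide
      rcases key a ha with rfl | rfl | rfl <;> simp [hw]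
    · exfalso
      rw [hw] at hg
      simp only [pos] at hg
      omega
  have hcard : (univ : Finset (Fin 11)).card ≤
      ({Sum.inl 8, Sum.inl 9, Sum.inl 10} : Finset (W k)).card :=
    Finset.card_le_card_of_injOn (fun g => e (f g)) (fun g _ => hall g)
      (fun g _ g' _ h => f.injective (e.injective h))
  have h3 : ({Sum.inl 8, Sum.inl 9, Sum.inl 10} : Finset (W k)).card ≤ 3 := Finset.card_le_three
  rw [Finset.card_univ, Fintype.card_fin] at hcard
  omega

theorem inP_M (k : ℕ) : InP G0 (M k) := by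
  refine ⟨M' k, ?_, ⟨emb k⟩⟩
  rw [degSeq_eq, degSeq_eq]
  congr 1
  funext v
  exact deg_eq k v

/-- large members of `D(G)` -/
theorem exists_large (k : ℕ) : ∃ n, k ≤ n ∧ ∃ K : SimpleGraph (Fin n), InD G0 K := by
  let Q : ℕ → Prop := fun n => ∃ K : SimpleGraph (Fin n), InP G0 K ∧ Nonempty (K ↪g M k)
  have hQ : ∃ n, Q n := by
    refine ⟨Fintype.card (W k), (M k).overFin rfl, ?_, ?_⟩
    · exact inP_iso ((M k).overFinIso rfl) (inP_M k)
    · exact ⟨((M k).overFinIso rfl).symm.toEmbedding⟩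
  obtain ⟨K, hK, ⟨e⟩⟩ := Nat.find_spec hQ
  refine ⟨Nat.find hQ, ?_, K, hK, ?_⟩
  · have hinj : Function.Injective (fun i : Fin (k + 1) =>
        (contains_chain e hK i true).choose) := by
      intro i j hij
      have h1 := (contains_chain e hK i true).choose_spec
      have h2 := (contains_chain e hK j true).choose_spec
      simp only at hij
      rw [hij, h2, Sum.inr.injEq, Prod.mk.injEq] at h1
      exact h1.1.symm
    have := Fintype.card_le_of_injective _ hinj
    rw [Fintype.card_fin, Fintype.card_fin] at this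
    omega
  · intro s hs hP
    have hlt : Fintype.card s < Nat.find hQ := by
      have h1 : Fintype.card s < Fintype.card (Fin (Nat.find hQ)) := by
        obtain ⟨x, hx⟩ : ∃ x, x ∉ s := by
          by_contra hc
          push Not at hc
          exact hs (Set.eq_univ_of_forall hc)
        exact Fintype.card_subtype_lt hx
      rwa [Fintype.card_fin] at h1
    apply Nat.find_min hQ hlt
    refine ⟨(K.induce s).overFin rfl, inP_iso ((K.induce s).overFinIso rfl) hP, ?_⟩
    exact ⟨(((K.induce s).overFinIso rfl).symm.toEmbedding.trans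
      (SimpleGraph.Embedding.induce s)).trans e⟩

/-- **Q1 is false.** For the `11`-vertex graph `G = G0` the set `D(G)` contains graphs with
arbitrarily many vertices; hence it is infinite: no finite list of graphs contains all members of
`D(G)` up to isomorphism. -/
theorem result :
    (∀ N : ℕ, ∃ n, N ≤ n ∧ ∃ K : SimpleGraph (Fin n), InD G0 K) ∧
    ¬ ∃ F : Finset (Σ n : ℕ, SimpleGraph (Fin n)), ∀ (n : ℕ) (K : SimpleGraph (Fin n)),
      InD G0 K → ∃ L ∈ F, Nonempty (K ≃g L.2) := by
  refine ⟨exists_large, ?_⟩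
  rintro ⟨F, hF⟩
  obtain ⟨n, hn, K, hK⟩ := exists_large (F.sup Sigma.fst + 1)
  obtain ⟨L, hL, ⟨e⟩⟩ := hF n K hK
  have h1 : n = L.1 := by
    have := Fintype.card_congr e.toEquiv
    rwa [Fintype.card_fin, Fintype.card_fin] at this
  have h2 : L.1 ≤ F.sup Sigma.fst := Finset.le_sup (f := Sigma.fst) hL
  omega

end Pool.Agent.Results.MP_a83c81_co.InfiniteD
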